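import Pool.Agent.H97.NR.Stmts

namespace Pool.NR.H4

variable {p : ℕ}

/-- The eight equations of `Eq3b`. -/
def E8 (a b c d A B C D a' b' c' d' A' B' C' D' u k v r e : ZMod p) : Prop :=
  u * a' + e * A' = u * u * a + u * k * b + (k * u * c + k * k * d) ∧
  u * b' + e * B' = u * v * b + k * v * d ∧
  u * c' + e * C' = v * u * c + v * k * d ∧
  u * d' + e * D' = v * v * d ∧
  r * A' = u * u * A + u * k * B + (k * u * C + k * k * D) ∧
  r * B' = u * v * B + k * v * D ∧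
  r * C' = v * u * C + v * k * D ∧
  r * D' = v * v * D

theorem eq3b_iff (a b c d A B C D a' b' c' d' A' B' C' D' : ZMod p) :
    Eq3b (T22 a b c d A B C D) (T22 a' b' c' d' A' B' C' D') ↔
      ∃ u k v r e, u ≠ 0 ∧ v ≠ 0 ∧ r ≠ 0 ∧
        E8 a b c d A B C D a' b' c' d' A' B' C' D' u k v r e := by
  unfold Eq3b E8
  constructor
  · rintro ⟨u, k, v, r, e, hu, hv, hr, h1, h2⟩
    refine ⟨u, k, v, r, e, hu, hv, hr, ?_⟩
    have a00 := h1 0 0
    have a01 := h1 0 1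
    have a10 := h1 1 0
    have a11 := h1 1 1
    have b00 := h2 0 0
    have b01 := h2 0 1
    have b10 := h2 1 0
    have b11 := h2 1 1
    simp [T22, Fin.sum_univ_two] at a00 a01 a10 a11 b00 b01 b10 b11
    exact ⟨a00, a01, a10, a11, b00, b01, b10, b11⟩
  · rintro ⟨u, k, v, r, e, hu, hv, hr, a00, a01, a10, a11, b00, b01, b10, b11⟩
    refine ⟨u, k, v, r, e, hu, hv, hr, ?_, ?_⟩
    · intro i j
      fin_cases i <;> fin_cases j <;> simp [T22, Fin.sum_univ_two] <;> assumption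
    · intro i j
      fin_cases i <;> fin_cases j <;> simp [T22, Fin.sum_univ_two] <;> assumption

theorem eta (B : Fin 2 → Fin 2 → Fin 2 → ZMod p) :
    B = T22 (B 0 0 0) (B 0 0 1) (B 0 1 0) (B 0 1 1) (B 1 0 0) (B 1 0 1) (B 1 1 0) (B 1 1 1) := by
  funext l i j
  fin_cases l <;> fin_cases i <;> fin_cases j <;> simp [T22]

theorem trans8 {a b c d A B C D a' b' c' d' A' B' C' D' a'' b'' c'' d'' A'' B'' C'' D''
    u k v r e u' k' v' r' e' : ZMod p}
    (h : E8 a b c d A B C D a' b' c' d' A' B' C' D' u k v r e)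
    (h' : E8 a' b' c' d' A' B' C' D' a'' b'' c'' d'' A'' B'' C'' D'' u' k' v' r' e') :
    E8 a b c d A B C D a'' b'' c'' d'' A'' B'' C'' D'' (u * u') (u' * k + k' * v) (v * v')
      (r * r') (r' * 0 + (e' * u + e * r')) := by
  obtain ⟨h1, h2, h3, h4, h5, h6, h7, h8⟩ := h
  obtain ⟨g1, g2, g3, g4, g5, g6, g7, g8⟩ := h'
  refine ⟨?_, ?_, ?_, ?_, ?_, ?_, ?_, ?_⟩
  · linear_combination (u' * u') * h1 + (u' * k') * h2 + (k' * u') * h3 + (k' * k') * h4 +
      u * g1 + e * g5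
  · linear_combination (u' * v') * h2 + (k' * v') * h4 + u * g2 + e * g6
  · linear_combination (u' * v') * h3 + (k' * v') * h4 + u * g3 + e * g7
  · linear_combination (v' * v') * h4 + u * g4 + e * g8
  · linear_combination (u' * u') * h5 + (u' * k') * h6 + (k' * u') * h7 + (k' * k') * h8 + r * g5
  · linear_combination (u' * v') * h6 + (k' * v') * h8 + r * g6
  · linear_combination (u' * v') * h7 + (k' * v') * h8 + r * g7
  · linear_combination (v' * v') * h8 + r * g8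

theorem trans [Fact p.Prime] {B B' B'' : Fin 2 → Fin 2 → Fin 2 → ZMod p}
    (h : Eq3b B B') (h' : Eq3b B' B'') : Eq3b B B'' := by
  rw [eta B, eta B'] at h
  rw [eta B', eta B''] at h'
  rw [eta B, eta B'']
  rw [eq3b_iff] at h h' ⊢
  obtain ⟨u, k, v, r, e, hu, hv, hr, h⟩ := h
  obtain ⟨u', k', v', r', e', hu', hv', hr', h'⟩ := h'
  exact ⟨_, _, _, _, _, mul_ne_zero hu hu', mul_ne_zero hv hv', mul_ne_zero hr hr', trans8 h h'⟩

theorem refl [Fact p.Prime] (B : Fin 2 → Fin 2 → Fin 2 → ZMod p) : Eq3b B B := by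
  rw [eta B, eq3b_iff]
  refine ⟨1, 0, 1, 1, 0, one_ne_zero, one_ne_zero, one_ne_zero, ?_⟩
  refine ⟨?_, ?_, ?_, ?_, ?_, ?_, ?_, ?_⟩ <;> ring

theorem symm8 [Fact p.Prime] {a b c d A B C D a' b' c' d' A' B' C' D' u k v r e : ZMod p}
    (hu : u ≠ 0) (hv : v ≠ 0) (hr : r ≠ 0)
    (h : E8 a b c d A B C D a' b' c' d' A' B' C' D' u k v r e) :
    E8 a' b' c' d' A' B' C' D' a b c d A B C D u⁻¹ (-(k * u⁻¹ * v⁻¹)) v⁻¹ r⁻¹
      (-(e * u⁻¹ * r⁻¹)) := by
  obtain ⟨h1, h2, h3, h4, h5, h6, h7, h8⟩ := h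
  have ha : a' = (u * u * a + u * k * b + (k * u * c + k * k * d) - e * A') * u⁻¹ := by
    field_simp; linear_combination h1
  have hb : b' = (u * v * b + k * v * d - e * B') * u⁻¹ := by
    field_simp; linear_combination h2
  have hc : c' = (v * u * c + v * k * d - e * C') * u⁻¹ := by
    field_simp; linear_combination h3
  have hd : d' = (v * v * d - e * D') * u⁻¹ := by
    field_simp; linear_combination h4
  have hA : A' = (u * u * A + u * k * B + (k * u * C + k * k * D)) * r⁻¹ := by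
    field_simp; linear_combination h5
  have hB : B' = (u * v * B + k * v * D) * r⁻¹ := by
    field_simp; linear_combination h6
  have hC : C' = (v * u * C + v * k * D) * r⁻¹ := by
    field_simp; linear_combination h7
  have hD : D' = (v * v * D) * r⁻¹ := by
    field_simp; linear_combination h8
  rw [ha, hb, hc, hd, hA, hB, hC, hD]
  refine ⟨?_, ?_, ?_, ?_, ?_, ?_, ?_, ?_⟩ <;> field_simp <;> ring

theorem symm [Fact p.Prime] {B B' : Fin 2 → Fin 2 → Fin 2 → ZMod p}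
    (h : Eq3b B B') : Eq3b B' B := by
  rw [eta B, eta B'] at h
  rw [eta B, eta B']
  rw [eq3b_iff] at h ⊢
  obtain ⟨u, k, v, r, e, hu, hv, hr, h⟩ := h
  exact ⟨_, _, _, _, _, inv_ne_zero hu, inv_ne_zero hv, inv_ne_zero hr, symm8 hu hv hr h⟩

/-- Scale `(b, c)` to the projective normal form. -/
theorem pt0 [Fact p.Prime] (b c : ZMod p) :
    (b = 0 ∧ c = 0) ∨ ∃ v : ZMod p, v ≠ 0 ∧ Pt (v * b) (v * c) := by
  by_cases hb : b = 0
  · by_cases hc : c = 0
    · exact Or.inl ⟨hb, hc⟩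
    · exact Or.inr ⟨c⁻¹, inv_ne_zero hc, Or.inr ⟨by rw [hb, mul_zero], inv_mul_cancel₀ hc⟩⟩
  · exact Or.inr ⟨b⁻¹, inv_ne_zero hb, Or.inl (inv_mul_cancel₀ hb)⟩

theorem pt0' [Fact p.Prime] (b c : ZMod p) :
    ∃ v : ZMod p, v ≠ 0 ∧ Pt0 (v * b) (v * c) := by
  rcases pt0 b c with ⟨h1, h2⟩ | ⟨v, hv, h⟩
  · exact ⟨1, one_ne_zero, Or.inl ⟨by rw [h1, mul_zero], by rw [h2, mul_zero]⟩⟩
  · exact ⟨v, hv, Or.inr h⟩

theorem bit [Fact p.Prime] (a : ZMod p) : ∃ u : ZMod p, u ≠ 0 ∧ Bit (u * a) := by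
  by_cases ha : a = 0
  · exact ⟨1, one_ne_zero, Or.inl (by rw [ha, mul_zero])⟩
  · exact ⟨a⁻¹, inv_ne_zero ha, Or.inr (inv_mul_cancel₀ ha)⟩

theorem pt_uniq [Fact p.Prime] {b c b' c' v : ZMod p} (hv : v ≠ 0) (h : Pt b c) (h' : Pt b' c')
    (hb : b' = v * b) (hc : c' = v * c) : v = 1 ∧ b = b' ∧ c = c' := by
  rcases h with h | ⟨h, h1⟩ <;> rcases h' with h' | ⟨h', h1'⟩
  · have : v = 1 := by rw [h, h', mul_one] at hb; exact hb.symm
    refine ⟨this, ?_, ?_⟩
    · rw [h, h']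
    · rw [hc, this, one_mul]
  · exfalso; rw [h, h', mul_one] at hb; exact hv hb.symm
  · exfalso; rw [h, h', mul_zero] at hb; exact one_ne_zero hb
  · have : v = 1 := by rw [h1, h1', mul_one] at hc; exact hc.symm
    refine ⟨this, ?_, ?_⟩
    · rw [h, h']
    · rw [hc, this, one_mul]

theorem pt_ne [Fact p.Prime] {b c : ZMod p} (h : Pt b c) : ¬ (b = 0 ∧ c = 0) := by
  rintro ⟨h1, h2⟩
  rcases h with h | ⟨h, h3⟩
  · rw [h1] at h; exact zero_ne_one h
  · rw [h2] at h3; exact zero_ne_one h3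

theorem pt0_uniq [Fact p.Prime] {b c b' c' v : ZMod p} (hv : v ≠ 0) (h : Pt0 b c)
    (h' : Pt0 b' c') (hb : b' = v * b) (hc : c' = v * c) : b = b' ∧ c = c' := by
  rcases h with ⟨h1, h2⟩ | h
  · rw [h1, mul_zero] at hb
    rw [h2, mul_zero] at hc
    rw [h1, h2, hb, hc]
    exact ⟨rfl, rfl⟩
  · rcases h' with ⟨h1, h2⟩ | h'
    · exfalso
      rw [h1] at hb
      rw [h2] at hc
      refine pt_ne h ⟨?_, ?_⟩
      · exact (mul_eq_zero.1 hb.symm).resolve_left hv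
      · exact (mul_eq_zero.1 hc.symm).resolve_left hv
    · exact (pt_uniq hv h h' hb hc).2

theorem bit_uniq [Fact p.Prime] {a a' u : ZMod p} (hu : u ≠ 0) (h : Bit a) (h' : Bit a')
    (ha : a' = u * a) : a = a' := by
  rcases h with h | h <;> rcases h' with h' | h' <;> rw [h, h'] at ha ⊢
  · rw [mul_zero] at ha; exact absurd ha one_ne_zero
  · rw [mul_one] at ha; exact absurd ha.symm hu

end Pool.NR.H4
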