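import Pool.Agent.H4.NR.Core3b

namespace Pool.NR

open H4

private theorem step {p : ℕ} [Fact p.Prime] (a b c d A B C D : ZMod p) (hD : D ≠ 0)
    (hBC : C - B ≠ 0) :
    ∃ A' a0 b0 c0 : ZMod p, ∀ w : ZMod p, w ≠ 0 →
      Eq3b (T22 a b c d A B C D) (T22 (w * a0) (w * b0) (w * c0) 0 A' 0 1 1) := by
  refine ⟨(A * D - B * C) * (C - B)⁻¹ ^ 2, ?_, ?_, ?_, ?_⟩
  rotate_left 3
  · intro w hw
    rw [eq3b_iff]
    refine ⟨w * (D * (C - B)⁻¹), -(w * B * (C - B)⁻¹), w, w * w * D, w * w * d,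
      mul_ne_zero hw (mul_ne_zero hD (inv_ne_zero hBC)), hw,
      mul_ne_zero (mul_ne_zero hw hw) hD, ?_⟩
    refine ⟨?_, ?_, ?_, ?_, ?_, ?_, ?_, ?_⟩
    rotate_left 3
    · ring
    · field_simp; ring
    · field_simp; ring
    · field_simp; ring
    · ring
    · have h := mul_inv_cancel₀ hBC
      have h' := mul_inv_cancel₀ hD
      have : ∀ X : ZMod p, D * (C - B)⁻¹ * ((C - B) * D⁻¹ * X) = X := by
        intro X; field_simp
      trans w * (D * (C - B)⁻¹) * (w * ((C - B) * D⁻¹ * ((D * (C - B)⁻¹) * (D * (C - B)⁻¹) * a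
        - (D * (C - B)⁻¹) * (B * (C - B)⁻¹) * (b + c) + (B * (C - B)⁻¹) ^ 2 * d
        - d * ((A * D - B * C) * (C - B)⁻¹ ^ 2)))) + w * w * d * ((A * D - B * C) * (C - B)⁻¹ ^ 2)
      · rfl
      · have := this ((D * (C - B)⁻¹) * (D * (C - B)⁻¹) * a
          - (D * (C - B)⁻¹) * (B * (C - B)⁻¹) * (b + c) + (B * (C - B)⁻¹) ^ 2 * d
          - d * ((A * D - B * C) * (C - B)⁻¹ ^ 2))
        linear_combination (w * w) * this
    · have : ∀ X : ZMod p, D * (C - B)⁻¹ * ((C - B) * D⁻¹ * X) = X := by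
        intro X; field_simp
      trans w * (D * (C - B)⁻¹) * (w * ((C - B) * D⁻¹ * ((D * (C - B)⁻¹) * b
        - (B * (C - B)⁻¹) * d))) + w * w * d * 0
      · rfl
      · have := this ((D * (C - B)⁻¹) * b - (B * (C - B)⁻¹) * d)
        linear_combination (w * w) * this
    · have : ∀ X : ZMod p, D * (C - B)⁻¹ * ((C - B) * D⁻¹ * X) = X := by
        intro X; field_simp
      trans w * (D * (C - B)⁻¹) * (w * ((C - B) * D⁻¹ * ((D * (C - B)⁻¹) * c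
        - (B * (C - B)⁻¹) * d - d))) + w * w * d * 1
      · rfl
      · have := this ((D * (C - B)⁻¹) * c - (B * (C - B)⁻¹) * d - d)
        linear_combination (w * w) * this

theorem d3a : D3AStmt := by
  intro p _ B hD hBC
  obtain ⟨A', a0, b0, c0, h⟩ := step (B 0 0 0) (B 0 0 1) (B 0 1 0) (B 0 1 1) (B 1 0 0) (B 1 0 1)
    (B 1 1 0) (B 1 1 1) hD (fun h => hBC (sub_eq_zero.1 h).symm)
  rw [← eta B] at h
  by_cases ha : a0 = 0
  · obtain ⟨v, hv, hp⟩ := pt0' b0 c0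
    exact ⟨_, NF3bA1.a1 A' (v * a0) (v * b0) (v * c0) (Or.inr ⟨by rw [ha, mul_zero], hp⟩), h v hv⟩
  · exact ⟨_, NF3bA1.a1 A' (a0⁻¹ * a0) (a0⁻¹ * b0) (a0⁻¹ * c0) (Or.inl (inv_mul_cancel₀ ha)),
      h _ (inv_ne_zero ha)⟩

end Pool.NR
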