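import Pool.Agent.H4.NR.Core3b

namespace Pool.NR

open H4

private theorem step1 {p : ℕ} [Fact p.Prime] (a b c d A B C : ZMod p) (hBC : B + C ≠ 0)
    (hB : B ≠ 0) :
    ∃ a' c' : ZMod p,
      Eq3b (T22 a b c d A B C 0) (T22 a' 0 c' d 0 1 (C * B⁻¹) 0) := by
  refine ⟨a - A * (B + C)⁻¹ * (b + c) + A ^ 2 * (B + C)⁻¹ ^ 2 * d,
    (c - A * (B + C)⁻¹ * d) - (b - A * (B + C)⁻¹ * d) * (C * B⁻¹), ?_⟩
  rw [eq3b_iff]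
  refine ⟨1, -(A * (B + C)⁻¹), 1, B, b - A * (B + C)⁻¹ * d, one_ne_zero, one_ne_zero, hB, ?_⟩
  refine ⟨?_, ?_, ?_, ?_, ?_, ?_, ?_, ?_⟩ <;> field_simp <;> ring

private theorem step2 {p : ℕ} [Fact p.Prime] (a b c d A C : ZMod p) (hC : C ≠ 0) :
    ∃ a' b' : ZMod p,
      Eq3b (T22 a b c d A 0 C 0) (T22 a' b' 0 d 0 0 1 0) := by
  refine ⟨a - A * C⁻¹ * (b + c) + A ^ 2 * C⁻¹ ^ 2 * d, b - A * C⁻¹ * d, ?_⟩
  rw [eq3b_iff]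
  refine ⟨1, -(A * C⁻¹), 1, C, c - A * C⁻¹ * d, one_ne_zero, one_ne_zero, hC, ?_⟩
  refine ⟨?_, ?_, ?_, ?_, ?_, ?_, ?_, ?_⟩ <;> field_simp <;> ring

private theorem act1 {p : ℕ} [Fact p.Prime] (a c d γ u v : ZMod p) (hu : u ≠ 0) (hv : v ≠ 0) :
    Eq3b (T22 a 0 c d 0 1 γ 0) (T22 (u * a) 0 (v * c) (v * v * d * u⁻¹) 0 1 γ 0) := by
  rw [eq3b_iff]
  refine ⟨u, 0, v, u * v, 0, hu, hv, mul_ne_zero hu hv, ?_⟩
  refine ⟨?_, ?_, ?_, ?_, ?_, ?_, ?_, ?_⟩ <;> field_simp <;> ring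

private theorem act2 {p : ℕ} [Fact p.Prime] (a b d u v : ZMod p) (hu : u ≠ 0) (hv : v ≠ 0) :
    Eq3b (T22 a b 0 d 0 0 1 0) (T22 (u * a) (v * b) 0 (v * v * d * u⁻¹) 0 0 1 0) := by
  rw [eq3b_iff]
  refine ⟨u, 0, v, u * v, 0, hu, hv, mul_ne_zero hu hv, ?_⟩
  refine ⟨?_, ?_, ?_, ?_, ?_, ?_, ?_, ?_⟩ <;> field_simp <;> ring

/-- The common scaling step. -/
private theorem scale (hk : KREStmt) {p : ℕ} [Fact p.Prime] (a c d : ZMod p) :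
    ∃ u v : ZMod p, u ≠ 0 ∧ v ≠ 0 ∧ ((u * a = 1 ∧ v * c = 1) ∨
      (u * a = 1 ∧ c = 0 ∧ Sq0 (v * v * d * u⁻¹)) ∨
      (a = 0 ∧ Bit (v * c) ∧ Bit (v * v * d * u⁻¹))) := by
  by_cases ha : a = 0
  · obtain ⟨v, hv, hp⟩ := bit c
    by_cases hd : d = 0
    · exact ⟨1, v, one_ne_zero, hv, Or.inr (Or.inr ⟨ha, hp, Or.inl (by rw [hd]; ring)⟩)⟩
    · refine ⟨v * v * d, v, mul_ne_zero (mul_ne_zero hv hv) hd, hv,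
        Or.inr (Or.inr ⟨ha, hp, Or.inr ?_⟩)⟩
      exact mul_inv_cancel₀ (mul_ne_zero (mul_ne_zero hv hv) hd)
  · by_cases hc : c = 0
    · by_cases hd : d = 0
      · exact ⟨a⁻¹, 1, inv_ne_zero ha, one_ne_zero, Or.inr (Or.inl ⟨inv_mul_cancel₀ ha, hc,
          Or.inl (by rw [hd]; ring)⟩)⟩
      · obtain ⟨s, t, hs, ht, hst⟩ := hk p 2 (d * a) (mul_ne_zero hd ha)
        refine ⟨a⁻¹, t⁻¹, inv_ne_zero ha, inv_ne_zero ht, Or.inr (Or.inl ⟨inv_mul_cancel₀ ha, hc,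
          Or.inr ?_⟩)⟩
        have : t⁻¹ * t⁻¹ * d * a⁻¹⁻¹ = s := by
          rw [inv_inv]
          have : t⁻¹ * t⁻¹ * d * a = t⁻¹ * t⁻¹ * (d * a) := by ring
          rw [this, hst]; field_simp
        rw [this]; exact hs
    · exact ⟨a⁻¹, c⁻¹, inv_ne_zero ha, inv_ne_zero hc, Or.inl ⟨inv_mul_cancel₀ ha,
        inv_mul_cancel₀ hc⟩⟩

theorem d3b (hk : KREStmt) : D3BStmt := by
  intro p _ B hD hBC
  have hB := eta B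
  rw [hD] at hB
  by_cases hb : B 1 0 1 = 0
  · rw [hb] at hB hBC
    rw [zero_add] at hBC
    obtain ⟨a, b, h⟩ := step2 (B 0 0 0) (B 0 0 1) (B 0 1 0) (B 0 1 1) (B 1 0 0) (B 1 1 0) hBC
    rw [← hB] at h
    obtain ⟨u, v, hu, hv, H⟩ := scale hk a b (B 0 1 1)
    have h2 := H4.trans h (act2 a b (B 0 1 1) u v hu hv)
    rcases H with ⟨h3, h4⟩ | ⟨h3, h4, h5⟩ | ⟨h3, h4, h5⟩
    · rw [h3, h4] at h2
      exact ⟨_, NF3bB.b4 _, h2⟩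
    · rw [h3, h4, mul_zero] at h2
      exact ⟨_, NF3bB.b5 _ h5, h2⟩
    · rw [h3, mul_zero] at h2
      exact ⟨_, NF3bB.b6 _ _ h4 h5, h2⟩
  · obtain ⟨a, c, h⟩ := step1 (B 0 0 0) (B 0 0 1) (B 0 1 0) (B 0 1 1) (B 1 0 0) (B 1 0 1)
      (B 1 1 0) hBC hb
    rw [← hB] at h
    obtain ⟨u, v, hu, hv, H⟩ := scale hk a c (B 0 1 1)
    have h2 := H4.trans h (act1 a c (B 0 1 1) _ u v hu hv)
    have hγ : B 1 1 0 * (B 1 0 1)⁻¹ ≠ -1 := by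
      intro h
      apply hBC
      have : B 1 1 0 = -1 * B 1 0 1 := by rw [← h]; field_simp
      rw [this]; ring
    rcases H with ⟨h3, h4⟩ | ⟨h3, h4, h5⟩ | ⟨h3, h4, h5⟩
    · rw [h3, h4] at h2
      exact ⟨_, NF3bB.b1 _ _ hγ, h2⟩
    · rw [h3, h4, mul_zero] at h2
      exact ⟨_, NF3bB.b2 _ _ hγ h5, h2⟩
    · rw [h3, mul_zero] at h2
      exact ⟨_, NF3bB.b3 _ _ _ hγ h4 h5, h2⟩

end Pool.NR
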