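import Pool.Agent.H4.NR.Core3b

namespace Pool.NR

open H4

private theorem step {p : ℕ} [Fact p.Prime] (a b c d A B D : ZMod p) (hD : D ≠ 0) :
    ∃ a' b' c' A' : ZMod p,
      Eq3b (T22 a b c d A B B D) (T22 a' b' c' 0 A' 0 0 1) := by
  refine ⟨a - B * D⁻¹ * (b + c) + B ^ 2 * D⁻¹ ^ 2 * d - d * ((A * D - B ^ 2) * D⁻¹ ^ 2),
    b - B * D⁻¹ * d, c - B * D⁻¹ * d, (A * D - B ^ 2) * D⁻¹ ^ 2, ?_⟩
  rw [eq3b_iff]
  refine ⟨1, -(B * D⁻¹), 1, D, d, one_ne_zero, one_ne_zero, hD, ?_⟩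
  refine ⟨?_, ?_, ?_, ?_, ?_, ?_, ?_, ?_⟩ <;> field_simp <;> ring

private theorem act {p : ℕ} [Fact p.Prime] (a b c A u v : ZMod p) (hu : u ≠ 0) (hv : v ≠ 0) :
    Eq3b (T22 a b c 0 A 0 0 1) (T22 (u * a) (v * b) (v * c) 0 (A * (u * v⁻¹) ^ 2) 0 0 1) := by
  rw [eq3b_iff]
  refine ⟨u, 0, v, v * v, 0, hu, hv, mul_ne_zero hv hv, ?_⟩
  refine ⟨?_, ?_, ?_, ?_, ?_, ?_, ?_, ?_⟩ <;> field_simp <;> ring

theorem d3g (hk : KREStmt) : D3GStmt := by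
  intro p _ B hD hBC
  have hB := eta B
  rw [← hBC] at hB
  obtain ⟨a, b, c, A, h⟩ := step (B 0 0 0) (B 0 0 1) (B 0 1 0) (B 0 1 1) (B 1 0 0) (B 1 0 1)
    (B 1 1 1) hD
  rw [← hB] at h
  suffices H : ∃ B', NF3bA2 B' ∧ Eq3b (T22 a b c 0 A 0 0 1) B' by
    obtain ⟨B', h1, h2⟩ := H
    exact ⟨B', h1, H4.trans h h2⟩
  clear h hB hBC hD
  by_cases hA : A = 0
  · obtain ⟨u, hu, hp⟩ := bit a
    obtain ⟨v, hv, hq⟩ := pt0' b c
    refine ⟨_, NF3bA2.a2 (u * a) (v * b) (v * c) hp hq, ?_⟩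
    have := act a b c A u v hu hv
    rw [hA, zero_mul] at this
    rwa [hA]
  · rcases pt0 b c with ⟨hb, hc⟩ | ⟨v, hv, hp⟩
    · obtain ⟨u, hu, hq⟩ := bit a
      obtain ⟨s, t, hs, ht, hst⟩ := hk p 2 A hA
      have := act a b c A u (u * t) hu (mul_ne_zero hu ht)
      have h3 : A * (u * (u * t)⁻¹) ^ 2 = s := by
        rw [hst]; field_simp
      rw [h3, hb, hc, mul_zero] at this
      rw [hb, hc]
      exact ⟨_, NF3bA2.a4 s (u * a) hs hq, this⟩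
    · by_cases ha : a = 0
      · obtain ⟨s, t, hs, ht, hst⟩ := hk p 2 A hA
        have := act a b c A (v * t⁻¹) v (mul_ne_zero hv (inv_ne_zero ht)) hv
        have h3 : A * (v * t⁻¹ * v⁻¹) ^ 2 = s := by
          rw [hst]; field_simp
        rw [h3, ha, mul_zero] at this
        rw [ha]
        exact ⟨_, NF3bA2.a5 s (v * b) (v * c) hs hp, this⟩
      · have := act a b c A a⁻¹ v (inv_ne_zero ha) hv
        rw [inv_mul_cancel₀ ha] at this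
        exact ⟨_, NF3bA2.a3 _ (v * b) (v * c) (mul_ne_zero hA (pow_ne_zero 2 (mul_ne_zero
          (inv_ne_zero ha) (inv_ne_zero hv)))) hp, this⟩

end Pool.NR
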