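import Pool.Agent.H4.NR.Core3b

namespace Pool.NR

open H4

private theorem step {p : ℕ} [Fact p.Prime] (a b c d B : ZMod p) (hB : B ≠ 0) :
    Eq3b (T22 a b c d 0 B (-B) 0) (T22 a 0 (c + b) d 0 1 (-1) 0) := by
  rw [eq3b_iff]
  refine ⟨1, 0, 1, B, b, one_ne_zero, one_ne_zero, hB, ?_⟩
  refine ⟨?_, ?_, ?_, ?_, ?_, ?_, ?_, ?_⟩ <;> ring

private theorem act {p : ℕ} [Fact p.Prime] (a s d u k v : ZMod p) (hu : u ≠ 0) (hv : v ≠ 0) :
    Eq3b (T22 a 0 s d 0 1 (-1) 0)
      (T22 (u * a + k * s + k * k * d * u⁻¹) 0 (v * s + 2 * k * v * d * u⁻¹) (v * v * d * u⁻¹)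
        0 1 (-1) 0) := by
  rw [eq3b_iff]
  refine ⟨u, k, v, u * v, k * v * d, hu, hv, mul_ne_zero hu hv, ?_⟩
  refine ⟨?_, ?_, ?_, ?_, ?_, ?_, ?_, ?_⟩ <;> field_simp <;> ring

theorem d3q (ha : AREStmt) (ht : ARTStmt) : D3QStmt := by
  intro p _ B hD hBC hb hA
  have hB := eta B
  have hC : B 1 1 0 = - B 1 0 1 := by linear_combination hBC
  rw [hD, hA, hC] at hB
  have h := step (B 0 0 0) (B 0 0 1) (B 0 1 0) (B 0 1 1) (B 1 0 1) hb
  rw [← hB] at h
  generalize B 0 0 0 = a at h
  generalize B 0 1 0 + B 0 0 1 = s at h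
  generalize B 0 1 1 = d at h
  suffices H : ∃ B', NF3bQ B' ∧ Eq3b (T22 a 0 s d 0 1 (-1) 0) B' by
    obtain ⟨B', h1, h2⟩ := H
    exact ⟨B', h1, H4.trans h h2⟩
  clear h hB hC hA hb hBC hD
  by_cases hd : d = 0
  · by_cases hs : s = 0
    · obtain ⟨u, hu, hp⟩ := bit a
      have := act a s d u 0 1 hu one_ne_zero
      refine ⟨_, NF3bQ.q5 _ hp, ?_⟩
      convert this using 2
      · rw [hd]; ring
      · rw [hs, hd]; ring
      · rw [hd]; ring
    · have := act a s d 1 (-(a * s⁻¹)) s⁻¹ one_ne_zero (inv_ne_zero hs)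
      refine ⟨_, NF3bQ.q4, ?_⟩
      convert this using 2
      · rw [hd]; field_simp; ring
      · rw [hd]; field_simp; ring
      · rw [hd]; ring
  · by_cases hroot : ∃ κ : ZMod p, a + κ * s + κ * κ * d = 0
    · obtain ⟨κ, hκ⟩ := hroot
      by_cases hs : s + 2 * κ * d = 0
      · have := act a s d d (d * κ) 1 hd one_ne_zero
        refine ⟨_, NF3bQ.q1, ?_⟩
        convert this using 2
        · field_simp; linear_combination (- d) * hκ
        · field_simp; linear_combination - hs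
        · field_simp
      · have hv := inv_ne_zero hs
        have := act a s d ((s + 2 * κ * d)⁻¹ * (s + 2 * κ * d)⁻¹ * d)
          ((s + 2 * κ * d)⁻¹ * (s + 2 * κ * d)⁻¹ * d * κ) (s + 2 * κ * d)⁻¹
          (mul_ne_zero (mul_ne_zero hv hv) hd) hv
        refine ⟨_, NF3bQ.q2, ?_⟩
        convert this using 2
        · field_simp; linear_combination (- d) * hκ
        · field_simp
        · field_simp
    · obtain ⟨a', ha', -⟩ := ha p
      obtain ⟨t, k, ht0, h1, h2⟩ := ht p a' s (a * d) ha' (by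
        intro x hx
        apply hroot
        refine ⟨x * d⁻¹, ?_⟩
        field_simp
        linear_combination hx)
      have := act a s d (t * t * d) (k * t) t (mul_ne_zero (mul_ne_zero ht0 ht0) hd) ht0
      refine ⟨_, NF3bQ.q3 a' ha', ?_⟩
      convert this using 2
      · field_simp; linear_combination - h2
      · field_simp; linear_combination - h1
      · field_simp

end Pool.NR
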