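import Pool.Agent.H4.NR.Core3b

namespace Pool.NR

open H4

private theorem z2 : ∀ x : ZMod 2, x ≠ 0 → x = 1 := by decide

private theorem z2' : ∀ a : ZMod 2, a + a + a * a - a = 0 ∧ 1 + 2 * a = 1 := by decide

private theorem step {p : ℕ} [Fact p.Prime] (a b c d A B : ZMod p) (hA : A ≠ 0) (hB : B ≠ 0) :
    ∃ a' s' d', Eq3b (T22 a b c d A B (-B) 0) (T22 a' 0 s' d' 1 1 (-1) 0) := by
  refine ⟨(B * B * a - A * B * b) * B⁻¹, A * (c + b), A ^ 2 * B⁻¹ * d, ?_⟩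
  rw [eq3b_iff]
  refine ⟨B, 0, A, B * B * A, A * B * b, hB, hA, mul_ne_zero (mul_ne_zero hB hB) hA, ?_⟩
  refine ⟨?_, ?_, ?_, ?_, ?_, ?_, ?_, ?_⟩ <;> field_simp <;> ring

private theorem act {p : ℕ} [Fact p.Prime] (a s d u k : ZMod p) (hu : u ≠ 0) :
    Eq3b (T22 a 0 s d 1 1 (-1) 0)
      (T22 (u * a + k * s + k * k * d * u⁻¹ - k * d) 0 (u * s + 2 * k * d) (u * d)
        1 1 (-1) 0) := by
  rw [eq3b_iff]
  refine ⟨u, k, u, u * u, k * u * d, hu, hu, mul_ne_zero hu hu, ?_⟩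
  refine ⟨?_, ?_, ?_, ?_, ?_, ?_, ?_, ?_⟩ <;> field_simp <;> ring

theorem d3t : D3TStmt := by
  intro p _ B hD hBC hb hA
  have hB := eta B
  have hC : B 1 1 0 = - B 1 0 1 := by linear_combination hBC
  rw [hD, hC] at hB
  obtain ⟨a, s, d, h⟩ := step (B 0 0 0) (B 0 0 1) (B 0 1 0) (B 0 1 1) (B 1 0 0) (B 1 0 1) hA hb
  rw [← hB] at h
  suffices H : ∃ B', NF3bT B' ∧ Eq3b (T22 a 0 s d 1 1 (-1) 0) B' by
    obtain ⟨B', h1, h2⟩ := H
    exact ⟨B', h1, H4.trans h h2⟩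
  clear h hB hC hA hb hBC hD
  by_cases hd : d = 0
  · by_cases hs : s = 0
    · obtain ⟨u, hu, hp⟩ := bit a
      have := act a s d u 0 hu
      refine ⟨_, NF3bT.t4 _ hp, ?_⟩
      convert this using 2
      · rw [hd]; ring
      · rw [hs, hd]; ring
      · rw [hd]; ring
    · have := act a s d s⁻¹ (-(a * s⁻¹ * s⁻¹)) (inv_ne_zero hs)
      refine ⟨_, NF3bT.t3, ?_⟩
      convert this using 2
      · rw [hd]; field_simp; ring
      · rw [hd]; field_simp; ring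
      · rw [hd]; ring
  · by_cases h2 : p = 2
    · subst h2
      have hd1 : d = 1 := z2 d hd
      subst hd1
      by_cases hs : s = 0
      · subst hs
        exact ⟨_, NF3bT.t1 a, H4.refl _⟩
      · have hs1 : s = 1 := z2 s hs
        subst hs1
        have := act a 1 1 1 a one_ne_zero
        refine ⟨_, NF3bT.t2 rfl, ?_⟩
        convert this using 2
        · rw [← (z2' a).1, inv_one]; ring
        · rw [mul_one, mul_one, (z2' a).2]
        · rw [mul_one]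
    · have h20 : (2 : ZMod p) ≠ 0 := by
        intro h
        apply h2
        have h3 : ((2 : ℕ) : ZMod p) = 0 := by exact_mod_cast h
        rw [ZMod.natCast_eq_zero_iff] at h3
        exact (Nat.prime_dvd_prime_iff_eq Fact.out Nat.prime_two).1 h3
      have := act a s d d⁻¹ (-(s * d⁻¹ * d⁻¹ * 2⁻¹)) (inv_ne_zero hd)
      have e1 : d⁻¹ * s + 2 * -(s * d⁻¹ * d⁻¹ * 2⁻¹) * d = 0 := by field_simp; ring
      rw [e1, inv_mul_cancel₀ hd] at this
      exact ⟨_, NF3bT.t1 _, this⟩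

end Pool.NR
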