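import Pool.Agent.H4.NR.Core3b

namespace Pool.NR

open H4

private theorem act {p : ℕ} [Fact p.Prime] (a b c d A u k v : ZMod p) (hA : A ≠ 0) (hu : u ≠ 0)
    (hv : v ≠ 0) :
    Eq3b (T22 a b c d A 0 0 0)
      (T22 0 (v * (b + k * d * u⁻¹)) (v * (c + k * d * u⁻¹)) (v * v * d * u⁻¹) 1 0 0 0) := by
  rw [eq3b_iff]
  refine ⟨u, k, v, u * u * A, u * u * a + u * k * b + (k * u * c + k * k * d), hu, hv,
    mul_ne_zero (mul_ne_zero hu hu) hA, ?_⟩
  refine ⟨?_, ?_, ?_, ?_, ?_, ?_, ?_, ?_⟩ <;> field_simp <;> ring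

theorem d3u : D3UStmt := by
  intro p _ B hD hB hC hA
  have h := eta B
  rw [hD, hB, hC] at h
  rw [h]
  generalize B 0 0 0 = a
  generalize B 0 0 1 = b
  generalize B 0 1 0 = c
  generalize B 0 1 1 = d
  by_cases hd : d = 0
  · obtain ⟨v, hv, hp⟩ := pt0' b c
    have := act a b c d (B 1 0 0) 1 0 v hA one_ne_zero hv
    refine ⟨_, NF3bU.u2 _ _ hp, ?_⟩
    convert this using 2
    · ring
    · ring
    · rw [hd]; ring
  · obtain ⟨v, hv, hp⟩ := bit (c - b)
    have := act a b c d (B 1 0 0) (v * v * d) (-(v * v * b)) v hA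
      (mul_ne_zero (mul_ne_zero hv hv) hd) hv
    refine ⟨_, NF3bU.u1 _ hp, ?_⟩
    convert this using 2
    · field_simp; ring
    · field_simp; ring
    · field_simp

end Pool.NR
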