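import Pool.Agent.H4.NR.Core3b

namespace Pool.NR

open H4

theorem x3a : X3AStmt := by
  intro p _ B B' h h' hE
  rcases h with ⟨α, a, b, c, h⟩
  rcases h' with ⟨α', a', b', c', h'⟩
  rw [eq3b_iff] at hE
  obtain ⟨u, k, v, r, e, hu, hv, hr, h1, h2, h3, h4, h5, h6, h7, h8⟩ := hE
  have hk : k = 0 := by
    have : k * v = 0 := by linear_combination - h6
    exact (mul_eq_zero.1 this).resolve_right hv
  subst hk
  have huv : u = v := by
    have : v * (u - v) = 0 := by linear_combination h8 - h7
    exact sub_eq_zero.1 ((mul_eq_zero.1 this).resolve_left hv)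
  subst huv
  have hru : r = u * u := by linear_combination h8
  have hα : α' = α := by
    have : u * u * (α' - α) = 0 := by rw [hru] at h5; linear_combination h5
    exact sub_eq_zero.1 ((mul_eq_zero.1 this).resolve_left (mul_ne_zero hu hu))
  have he : e = 0 := by linear_combination h4
  subst he
  have ha : a' = u * a := mul_left_cancel₀ hu (by linear_combination h1)
  have hb : b' = u * b := mul_left_cancel₀ hu (by linear_combination h2)
  have hc : c' = u * c := mul_left_cancel₀ hu (by linear_combination h3)
  have key : a = a' ∧ b = b' ∧ c = c' := by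
    rcases h with h | ⟨h, hp⟩ <;> rcases h' with h' | ⟨h', hp'⟩
    · have h1 : u = 1 := by rw [h, h', mul_one] at ha; exact ha.symm
      rw [ha, hb, hc, h1]; simp
    · exfalso; rw [h, h', mul_one] at ha; exact hu ha.symm
    · exfalso; rw [h, h', mul_zero] at ha; exact one_ne_zero ha
    · obtain ⟨k1, k2⟩ := pt0_uniq hu hp hp' hb hc
      exact ⟨by rw [h, h'], k1, k2⟩
  rw [hα, key.1, key.2.1, key.2.2]

end Pool.NR
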