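import Pool.Agent.H4.NR.Core3b

namespace Pool.NR

open H4

private theorem ex1 {p : ℕ} [Fact p.Prime] {γ a c d γ' a' c' d' : ZMod p} (hγ : γ ≠ -1)
    (hE : Eq3b (T22 a 0 c d 0 1 γ 0) (T22 a' 0 c' d' 0 1 γ' 0)) :
    ∃ u v : ZMod p, u ≠ 0 ∧ v ≠ 0 ∧ a' = u * a ∧ c' = v * c ∧ d' = v * v * d * u⁻¹ ∧ γ' = γ := by
  rw [eq3b_iff] at hE
  obtain ⟨u, k, v, r, e, hu, hv, hr, h1, h2, h3, h4, h5, h6, h7, h8⟩ := hE
  have hk : k = 0 := by
    have : u * k * (1 + γ) = 0 := by linear_combination - h5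
    rcases mul_eq_zero.1 this with h | h
    · exact (mul_eq_zero.1 h).resolve_left hu
    · exfalso; apply hγ; linear_combination h
  subst hk
  have hrv : r = u * v := by linear_combination h6
  have he : e = 0 := by linear_combination h2
  subst he
  refine ⟨u, v, hu, hv, mul_left_cancel₀ hu (by linear_combination h1),
    mul_left_cancel₀ hu (by linear_combination h3), ?_, ?_⟩
  · field_simp; linear_combination h4
  · rw [hrv] at h7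
    exact mul_left_cancel₀ (mul_ne_zero hu hv) (by linear_combination h7)

private theorem ex2 {p : ℕ} [Fact p.Prime] {a b d a' b' d' : ZMod p}
    (hE : Eq3b (T22 a b 0 d 0 0 1 0) (T22 a' b' 0 d' 0 0 1 0)) :
    ∃ u v : ZMod p, u ≠ 0 ∧ v ≠ 0 ∧ a' = u * a ∧ b' = v * b ∧ d' = v * v * d * u⁻¹ := by
  rw [eq3b_iff] at hE
  obtain ⟨u, k, v, r, e, hu, hv, hr, h1, h2, h3, h4, h5, h6, h7, h8⟩ := hE
  have hk : k = 0 := by
    have : u * k = 0 := by linear_combination - h5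
    exact (mul_eq_zero.1 this).resolve_left hu
  subst hk
  have he : e = 0 := by linear_combination h3
  subst he
  refine ⟨u, v, hu, hv, mul_left_cancel₀ hu (by linear_combination h1),
    mul_left_cancel₀ hu (by linear_combination h2), ?_⟩
  field_simp; linear_combination h4

private theorem ne1 {p : ℕ} [Fact p.Prime] {a b c d a' b' c' d' γ A' D : ZMod p}
    (hE : Eq3b (T22 a b c d A' 1 γ 0) (T22 a' b' c' d' D 0 1 0)) : False := by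
  rw [eq3b_iff] at hE
  obtain ⟨u, k, v, r, e, hu, hv, hr, h1, h2, h3, h4, h5, h6, h7, h8⟩ := hE
  exact mul_ne_zero hu hv (by linear_combination - h6)

private theorem ne2 {p : ℕ} [Fact p.Prime] {a b c d a' b' c' d' γ A' D : ZMod p}
    (hE : Eq3b (T22 a b c d A' 0 1 0) (T22 a' b' c' d' D 1 γ 0)) : False := by
  rw [eq3b_iff] at hE
  obtain ⟨u, k, v, r, e, hu, hv, hr, h1, h2, h3, h4, h5, h6, h7, h8⟩ := hE
  exact hr (by linear_combination h6)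

private theorem sq0_uniq (hk : KRUStmt) {p : ℕ} [Fact p.Prime] {d d' t : ZMod p} (ht : t ≠ 0)
    (h : Sq0 d) (h' : Sq0 d') (hd : d' = d * t ^ 2) : d = d' := by
  rcases h with h | h <;> rcases h' with h' | h'
  · rw [h, h']
  · exfalso; rw [h, zero_mul] at hd; exact h'.1 hd
  · exfalso; rw [h'] at hd; exact (mul_ne_zero h.1 (pow_ne_zero 2 ht)) hd.symm
  · exact hk p 2 d d' t h h' ht hd

private def P1 {p : ℕ} (a c d : ZMod p) : Prop :=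
  (a = 1 ∧ c = 1) ∨ (a = 1 ∧ c = 0 ∧ Sq0 d) ∨ (a = 0 ∧ Bit c ∧ Bit d)

private theorem p1_uniq (hk : KRUStmt) {p : ℕ} [Fact p.Prime] {a c d a' c' d' u v : ZMod p}
    (hu : u ≠ 0) (hv : v ≠ 0) (h : P1 a c d) (h' : P1 a' c' d') (ha : a' = u * a)
    (hc : c' = v * c) (hd : d' = v * v * d * u⁻¹) : a = a' ∧ c = c' ∧ d = d' := by
  rcases h with ⟨h1, h2⟩ | ⟨h1, h2, h3⟩ | ⟨h1, h2, h3⟩ <;>
  rcases h' with ⟨h1', h2'⟩ | ⟨h1', h2', h3'⟩ | ⟨h1', h2', h3'⟩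
  · have hu1 : u = 1 := by rw [h1, h1', mul_one] at ha; exact ha.symm
    have hv1 : v = 1 := by rw [h2, h2', mul_one] at hc; exact hc.symm
    rw [ha, hc, hd, hu1, hv1]; simp
  · exfalso; rw [h2, h2', mul_one] at hc; exact hv hc.symm
  · exfalso; rw [h1, h1', mul_one] at ha; exact hu ha.symm
  · exfalso; rw [h2, h2', mul_zero] at hc; exact one_ne_zero hc
  · have hu1 : u = 1 := by rw [h1, h1', mul_one] at ha; exact ha.symm
    refine ⟨by rw [h1, h1'], by rw [h2, h2'], ?_⟩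
    exact sq0_uniq hk hv h3 h3' (by rw [hd, hu1, inv_one]; ring)
  · exfalso; rw [h1, h1', mul_one] at ha; exact hu ha.symm
  · exfalso; rw [h1, h1', mul_zero] at ha; exact one_ne_zero ha
  · exfalso; rw [h1, h1', mul_zero] at ha; exact one_ne_zero ha
  · refine ⟨by rw [h1, h1'], bit_uniq hv h2 h2' hc, ?_⟩
    exact bit_uniq (mul_ne_zero (mul_ne_zero hv hv) (inv_ne_zero hu)) h3 h3' (by rw [hd]; ring)

private theorem shape {p : ℕ} {B : Fin 2 → Fin 2 → Fin 2 → ZMod p} (h : NF3bB B) :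
    (∃ a c d γ : ZMod p, γ ≠ -1 ∧ P1 a c d ∧ B = T22 a 0 c d 0 1 γ 0) ∨
    (∃ a b d : ZMod p, P1 a b d ∧ B = T22 a b 0 d 0 0 1 0) := by
  rcases h with ⟨γ, d, hγ⟩ | ⟨γ, d, hγ, hs⟩ | ⟨γ, c, d, hγ, hc, hd⟩ | ⟨d⟩ | ⟨d, hs⟩ |
    ⟨b, d, hb, hd⟩
  · exact Or.inl ⟨1, 1, d, γ, hγ, Or.inl ⟨rfl, rfl⟩, rfl⟩
  · exact Or.inl ⟨1, 0, d, γ, hγ, Or.inr (Or.inl ⟨rfl, rfl, hs⟩), rfl⟩
  · exact Or.inl ⟨0, c, d, γ, hγ, Or.inr (Or.inr ⟨rfl, hc, hd⟩), rfl⟩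
  · exact Or.inr ⟨1, 1, d, Or.inl ⟨rfl, rfl⟩, rfl⟩
  · exact Or.inr ⟨1, 0, d, Or.inr (Or.inl ⟨rfl, rfl, hs⟩), rfl⟩
  · exact Or.inr ⟨0, b, d, Or.inr (Or.inr ⟨rfl, hb, hd⟩), rfl⟩

theorem x3b (hk : KRUStmt) : X3BStmt := by
  intro p _ B B' h h' hE
  rcases shape h with ⟨a, c, d, γ, hγ, hP, rfl⟩ | ⟨a, b, d, hP, rfl⟩ <;>
  rcases shape h' with ⟨a', c', d', γ', hγ', hP', rfl⟩ | ⟨a', b', d', hP', rfl⟩
  · obtain ⟨u, v, hu, hv, h1, h2, h3, h4⟩ := ex1 hγ hE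
    obtain ⟨k1, k2, k3⟩ := p1_uniq hk hu hv hP hP' h1 h2 h3
    rw [h4, k1, k2, k3]
  · exact (ne1 hE).elim
  · exact (ne2 hE).elim
  · obtain ⟨u, v, hu, hv, h1, h2, h3⟩ := ex2 hE
    obtain ⟨k1, k2, k3⟩ := p1_uniq hk hu hv hP hP' h1 h2 h3
    rw [k1, k2, k3]

end Pool.NR
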