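import Pool.Agent.H4.NR.Core3b

namespace Pool.NR

open H4

/-- The type of the second form: `(α, 0, 1, 1)`, `(α, 0, 0, 1)`, `(0, β, γ, 0)`, ... -/
private def Ty {p : ℕ} (n : Fin 6) (A B C D : ZMod p) : Prop :=
  match n with
  | 0 => D ≠ 0 ∧ B ≠ C
  | 1 => D ≠ 0 ∧ B = C
  | 2 => D = 0 ∧ B + C ≠ 0
  | 3 => D = 0 ∧ B + C = 0 ∧ B ≠ 0 ∧ A = 0
  | 4 => D = 0 ∧ B + C = 0 ∧ B ≠ 0 ∧ A ≠ 0
  | 5 => D = 0 ∧ B = 0 ∧ C = 0 ∧ A ≠ 0

/-- The blocks. -/
private def Bl {p : ℕ} (n : Fin 6) (B : Fin 2 → Fin 2 → Fin 2 → ZMod p) : Prop :=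
  match n with
  | 0 => NF3bA1 B
  | 1 => NF3bA2 B
  | 2 => NF3bB B
  | 3 => NF3bQ B
  | 4 => NF3bT B
  | 5 => NF3bU B

private theorem shape {p : ℕ} [Fact p.Prime] {B : Fin 2 → Fin 2 → Fin 2 → ZMod p}
    (h : NF3b B) : ∃ n, Bl n B ∧ ∃ a b c d A B' C D : ZMod p, Ty n A B' C D ∧
      B = T22 a b c d A B' C D := by
  rcases h with h | h | h | h | h | h
  · refine ⟨0, h, ?_⟩
    rcases h with ⟨α, a, b, c, h⟩
    exact ⟨_, _, _, _, _, _, _, _, ⟨one_ne_zero, zero_ne_one⟩, rfl⟩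
  · refine ⟨1, h, ?_⟩
    rcases h with ⟨a, b, c, h1, h2⟩ | ⟨α, b, c, h1, h2⟩ | ⟨α, a, h1, h2⟩ | ⟨α, b, c, h1, h2⟩ <;>
    exact ⟨_, _, _, _, _, _, _, _, ⟨one_ne_zero, rfl⟩, rfl⟩
  · refine ⟨2, h, ?_⟩
    have aux : ∀ γ : ZMod p, γ ≠ -1 → 1 + γ ≠ 0 := by
      intro γ h h'
      exact h (by linear_combination h')
    have aux2 : (0 : ZMod p) + 1 ≠ 0 := by rw [zero_add]; exact one_ne_zero
    rcases h with ⟨γ, d, hγ⟩ | ⟨γ, d, hγ, hs⟩ | ⟨γ, c, d, hγ, hc, hd⟩ | ⟨d⟩ | ⟨d, hs⟩ |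
      ⟨b, d, hb, hd⟩
    · exact ⟨_, _, _, _, _, _, _, _, ⟨rfl, aux γ hγ⟩, rfl⟩
    · exact ⟨_, _, _, _, _, _, _, _, ⟨rfl, aux γ hγ⟩, rfl⟩
    · exact ⟨_, _, _, _, _, _, _, _, ⟨rfl, aux γ hγ⟩, rfl⟩
    · exact ⟨_, _, _, _, _, _, _, _, ⟨rfl, aux2⟩, rfl⟩
    · exact ⟨_, _, _, _, _, _, _, _, ⟨rfl, aux2⟩, rfl⟩
    · exact ⟨_, _, _, _, _, _, _, _, ⟨rfl, aux2⟩, rfl⟩
  · refine ⟨3, h, ?_⟩
    rcases h with _ | _ | ⟨a, h⟩ | _ | ⟨a, h⟩ <;>
    exact ⟨_, _, _, _, _, _, _, _, ⟨rfl, add_neg_cancel _, one_ne_zero, rfl⟩, rfl⟩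
  · refine ⟨4, h, ?_⟩
    rcases h with ⟨a⟩ | h2 | _ | ⟨a, h⟩ <;>
    exact ⟨_, _, _, _, _, _, _, _, ⟨rfl, add_neg_cancel _, one_ne_zero, one_ne_zero⟩, rfl⟩
  · refine ⟨5, h, ?_⟩
    rcases h with ⟨c, h⟩ | ⟨b, c, h⟩ <;>
    exact ⟨_, _, _, _, _, _, _, _, ⟨rfl, rfl, rfl, one_ne_zero⟩, rfl⟩

private theorem inv {p : ℕ} [Fact p.Prime] {A B C D A' B' C' D' u k v r : ZMod p}
    (hu : u ≠ 0) (hv : v ≠ 0) (hr : r ≠ 0)
    (h5 : r * A' = u * u * A + u * k * B + (k * u * C + k * k * D))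
    (h6 : r * B' = u * v * B + k * v * D)
    (h7 : r * C' = v * u * C + v * k * D)
    (h8 : r * D' = v * v * D) {n m : Fin 6} (hn : Ty n A B C D) (hm : Ty m A' B' C' D') :
    n = m := by
  have hD : D' = 0 ↔ D = 0 := by
    constructor
    · intro h
      rw [h, mul_zero] at h8
      exact (mul_eq_zero.1 h8.symm).resolve_left (mul_ne_zero hv hv)
    · intro h
      rw [h, mul_zero] at h8
      exact (mul_eq_zero.1 h8).resolve_left hr
  have hBC : B' = C' ↔ B = C := by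
    have : r * (B' - C') = u * v * (B - C) := by linear_combination h6 - h7
    constructor
    · intro h
      rw [h, sub_self, mul_zero] at this
      exact sub_eq_zero.1 ((mul_eq_zero.1 this.symm).resolve_left (mul_ne_zero hu hv))
    · intro h
      rw [h, sub_self, mul_zero] at this
      exact sub_eq_zero.1 ((mul_eq_zero.1 this).resolve_left hr)
  have hBC2 : D = 0 → (B' + C' = 0 ↔ B + C = 0) := by
    intro hD0
    have : r * (B' + C') = u * v * (B + C) := by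
      rw [hD0] at h6 h7; linear_combination h6 + h7
    constructor
    · intro h
      rw [h, mul_zero] at this
      exact (mul_eq_zero.1 this.symm).resolve_left (mul_ne_zero hu hv)
    · intro h
      rw [h, mul_zero] at this
      exact (mul_eq_zero.1 this).resolve_left hr
  have hB0 : D = 0 → (B' = 0 ↔ B = 0) := by
    intro hD0
    have : r * B' = u * v * B := by
      rw [hD0] at h6; linear_combination h6
    constructor
    · intro h
      rw [h, mul_zero] at this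
      exact (mul_eq_zero.1 this.symm).resolve_left (mul_ne_zero hu hv)
    · intro h
      rw [h, mul_zero] at this
      exact (mul_eq_zero.1 this).resolve_left hr
  have hA : D = 0 → B + C = 0 → (A' = 0 ↔ A = 0) := by
    intro hD0 hBC0
    have : r * A' = u * u * A := by
      rw [hD0] at h5; linear_combination h5 + u * k * hBC0
    constructor
    · intro h
      rw [h, mul_zero] at this
      exact (mul_eq_zero.1 this.symm).resolve_left (mul_ne_zero hu hu)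
    · intro h
      rw [h, mul_zero] at this
      exact (mul_eq_zero.1 this).resolve_left hr
  fin_cases n <;> fin_cases m <;> simp only [Ty] at hn hm <;>
  first
  | rfl
  | (exfalso
     obtain ⟨n1, n2⟩ := hn
     obtain ⟨m1, m2⟩ := hm
     by_cases hD0 : D = 0
     · have q1 := hD.2 hD0
       have q2 := hBC2 hD0
       have q3 := hB0 hD0
       have q4 := hA hD0
       grind
     · grind)

theorem x3c : X3CStmt := by
  intro p _ B B' h h' hE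
  obtain ⟨n, hn, a, b, c, d, A, B1, C, D, hT, rfl⟩ := shape h
  obtain ⟨m, hm, a', b', c', d', A', B1', C', D', hT', rfl⟩ := shape h'
  rw [eq3b_iff] at hE
  obtain ⟨u, k, v, r, e, hu, hv, hr, h1, h2, h3, h4, h5, h6, h7, h8⟩ := hE
  have hnm := inv hu hv hr h5 h6 h7 h8 hT hT'
  subst hnm
  fin_cases n <;> simp only [Bl] at hn hm
  · exact Or.inl ⟨hn, hm⟩
  · exact Or.inr (Or.inl ⟨hn, hm⟩)
  · exact Or.inr (Or.inr (Or.inl ⟨hn, hm⟩))
  · exact Or.inr (Or.inr (Or.inr (Or.inl ⟨hn, hm⟩)))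
  · exact Or.inr (Or.inr (Or.inr (Or.inr (Or.inl ⟨hn, hm⟩))))
  · exact Or.inr (Or.inr (Or.inr (Or.inr (Or.inr ⟨hn, hm⟩))))

end Pool.NR
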