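import Pool.Agent.H4.NR.Core3b

namespace Pool.NR

open H4

private theorem ex {p : ℕ} [Fact p.Prime] {α a b c α' a' b' c' : ZMod p}
    (hE : Eq3b (T22 a b c 0 α 0 0 1) (T22 a' b' c' 0 α' 0 0 1)) :
    ∃ u v : ZMod p, u ≠ 0 ∧ v ≠ 0 ∧ a' = u * a ∧ b' = v * b ∧ c' = v * c ∧
      α' = α * (u * v⁻¹) ^ 2 := by
  rw [eq3b_iff] at hE
  obtain ⟨u, k, v, r, e, hu, hv, hr, h1, h2, h3, h4, h5, h6, h7, h8⟩ := hE
  have hk : k = 0 := by
    have : k * v = 0 := by linear_combination - h6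
    exact (mul_eq_zero.1 this).resolve_right hv
  subst hk
  have hrv : r = v * v := by linear_combination h8
  have he : e = 0 := by linear_combination h4
  subst he
  refine ⟨u, v, hu, hv, mul_left_cancel₀ hu (by linear_combination h1),
    mul_left_cancel₀ hu (by linear_combination h2), mul_left_cancel₀ hu (by linear_combination h3),
    ?_⟩
  rw [hrv] at h5
  field_simp
  linear_combination h5

theorem x3g (hk : KRUStmt) : X3GStmt := by
  intro p _ B B' h h' hE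
  rcases h with ⟨a, b, c, h1, h2⟩ | ⟨α, b, c, h1, h2⟩ | ⟨α, a, h1, h2⟩ | ⟨α, b, c, h1, h2⟩ <;>
  rcases h' with ⟨a', b', c', h1', h2'⟩ | ⟨α', b', c', h1', h2'⟩ | ⟨α', a', h1', h2'⟩ |
    ⟨α', b', c', h1', h2'⟩ <;>
  obtain ⟨u, v, hu, hv, ha, hb, hc, hα⟩ := ex hE
  · obtain ⟨k1, k2⟩ := pt0_uniq hv h2 h2' hb hc
    rw [bit_uniq hu h1 h1' ha, k1, k2]
  · exfalso; rw [zero_mul] at hα; exact h1' hα
  · exfalso; rw [zero_mul] at hα; exact h1'.1 hα
  · exfalso; rw [zero_mul] at hα; exact h1'.1 hα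
  · exfalso
    exact (mul_ne_zero h1 (pow_ne_zero 2 (mul_ne_zero hu (inv_ne_zero hv)))) hα.symm
  · obtain ⟨k0, k1, k2⟩ := pt_uniq hv h2 h2' hb hc
    have : u = 1 := by rw [mul_one] at ha; exact ha.symm
    rw [this, k0] at hα
    rw [hα, k1, k2]; simp
  · exfalso
    exact pt_ne h2 ⟨(mul_eq_zero.1 hb.symm).resolve_left hv,
      (mul_eq_zero.1 hc.symm).resolve_left hv⟩
  · exfalso; rw [mul_one] at ha; exact hu ha.symm
  · exfalso
    exact (mul_ne_zero h1.1 (pow_ne_zero 2 (mul_ne_zero hu (inv_ne_zero hv)))) hα.symm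
  · exfalso
    exact pt_ne h2' ⟨by rw [hb, mul_zero], by rw [hc, mul_zero]⟩
  · have := hk p 2 α α' _ h1 h1' (mul_ne_zero hu (inv_ne_zero hv)) hα
    rw [bit_uniq hu h2 h2' ha, this]
  · exfalso
    exact pt_ne h2' ⟨by rw [hb, mul_zero], by rw [hc, mul_zero]⟩
  · exfalso
    exact (mul_ne_zero h1.1 (pow_ne_zero 2 (mul_ne_zero hu (inv_ne_zero hv)))) hα.symm
  · exfalso; rw [mul_zero] at ha; exact one_ne_zero ha
  · exfalso
    exact pt_ne h2 ⟨(mul_eq_zero.1 hb.symm).resolve_left hv,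
      (mul_eq_zero.1 hc.symm).resolve_left hv⟩
  · obtain ⟨k0, k1, k2⟩ := pt_uniq hv h2 h2' hb hc
    have := hk p 2 α α' _ h1 h1' (mul_ne_zero hu (inv_ne_zero hv)) hα
    rw [this, k1, k2]

end Pool.NR
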