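import Pool.Agent.H4.NR.Core3b

namespace Pool.NR

open H4

private theorem ex {p : ℕ} [Fact p.Prime] {a s d a' s' d' : ZMod p}
    (hE : Eq3b (T22 a 0 s d 0 1 (-1) 0) (T22 a' 0 s' d' 0 1 (-1) 0)) :
    ∃ u k v : ZMod p, u ≠ 0 ∧ v ≠ 0 ∧ u * a' = u * u * a + k * u * s + k * k * d ∧
      u * s' = u * v * s + 2 * k * v * d ∧ u * d' = v * v * d := by
  rw [eq3b_iff] at hE
  obtain ⟨u, k, v, r, e, hu, hv, hr, h1, h2, h3, h4, h5, h6, h7, h8⟩ := hE
  refine ⟨u, k, v, hu, hv, ?_, ?_, ?_⟩
  · linear_combination h1
  · linear_combination h3 + h2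
  · linear_combination h4

theorem x3q (ha : AREStmt) : X3QStmt := by
  intro p _ B B' h h' hE
  rcases h with _ | _ | ⟨a, h⟩ | _ | ⟨a, h⟩ <;>
  rcases h' with _ | _ | ⟨a', h'⟩ | _ | ⟨a', h'⟩ <;>
  obtain ⟨u, k, v, hu, hv, h1, h2, h3⟩ := ex hE
  -- q1
  · rfl
  · exfalso
    have hk : k = 0 := by
      have : k * k = 0 := by linear_combination - h1
      exact mul_self_eq_zero.1 this
    rw [hk] at h2
    exact hu (by linear_combination h2)
  · exfalso
    refine h'.1 (- k * v⁻¹) ?_
    have h4 : v = 2 * k := by
      have : v * (v - 2 * k) = 0 := by linear_combination h2 - h3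
      exact sub_eq_zero.1 ((mul_eq_zero.1 this).resolve_left hv)
    have h5 : a' * v ^ 2 = k * k := by linear_combination h1 - a' * h3
    field_simp
    linear_combination h5 - k * h4
  · exfalso; exact (mul_ne_zero hv hv) (by linear_combination - h3)
  · exfalso; exact (mul_ne_zero hv hv) (by linear_combination - h3)
  -- q2
  · exfalso
    have h4 : u = - (2 * k) := by
      have : v * (u + 2 * k) = 0 := by linear_combination - h2
      linear_combination (mul_eq_zero.1 this).resolve_left hv
    have h5 : k * k = 0 := by linear_combination h1 + k * h4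
    have h6 : k = 0 := mul_self_eq_zero.1 h5
    rw [h6] at h4
    exact hu (by linear_combination h4)
  · rfl
  · exfalso
    refine h'.1 (- k * v⁻¹) ?_
    have h4 : v = u + 2 * k := by
      have : v * (v - (u + 2 * k)) = 0 := by linear_combination h2 - h3
      exact sub_eq_zero.1 ((mul_eq_zero.1 this).resolve_left hv)
    have h5 : a' * v ^ 2 = k * u + k * k := by linear_combination h1 - a' * h3
    field_simp
    linear_combination h5 - k * h4
  · exfalso; exact (mul_ne_zero hv hv) (by linear_combination - h3)
  · exfalso; exact (mul_ne_zero hv hv) (by linear_combination - h3)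
  -- q3
  · exfalso
    refine h.1 (k * u⁻¹) ?_
    field_simp
    linear_combination - h1
  · exfalso
    refine h.1 (k * u⁻¹) ?_
    field_simp
    linear_combination - h1
  · obtain ⟨a0, -, hu0⟩ := ha p
    rw [hu0 a h, hu0 a' h']
  · exfalso; exact (mul_ne_zero hv hv) (by linear_combination - h3)
  · exfalso; exact (mul_ne_zero hv hv) (by linear_combination - h3)
  -- q4
  · exfalso; exact hu (by linear_combination h3)
  · exfalso; exact hu (by linear_combination h3)
  · exfalso; exact hu (by linear_combination h3)
  · rfl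
  · exfalso; exact (mul_ne_zero hu hv) (by linear_combination - h2)
  -- q5
  · exfalso; exact hu (by linear_combination h3)
  · exfalso; exact hu (by linear_combination h3)
  · exfalso; exact hu (by linear_combination h3)
  · exfalso; exact hu (by linear_combination h2)
  · rw [bit_uniq hu h h' (mul_left_cancel₀ hu (by linear_combination h1))]

end Pool.NR
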