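import Pool.Agent.H4.NR.Core3b

namespace Pool.NR

open H4

private theorem z2 : ∀ a k : ZMod 2, a + k * k - k = a ∧ 2 * k = 0 := by decide

private theorem ex {p : ℕ} [Fact p.Prime] {a s d a' s' d' : ZMod p}
    (hE : Eq3b (T22 a 0 s d 1 1 (-1) 0) (T22 a' 0 s' d' 1 1 (-1) 0)) :
    ∃ u k : ZMod p, u ≠ 0 ∧ u * a' = u * u * a + k * u * s + k * k * d - k * u * d ∧
      s' = u * s + 2 * k * d ∧ d' = u * d := by
  rw [eq3b_iff] at hE
  obtain ⟨u, k, v, r, e, hu, hv, hr, h1, h2, h3, h4, h5, h6, h7, h8⟩ := hE
  have huv : u = v := by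
    have : u * (u - v) = 0 := by linear_combination h6 - h5
    exact sub_eq_zero.1 ((mul_eq_zero.1 this).resolve_left hu)
  subst huv
  refine ⟨u, k, hu, ?_, mul_left_cancel₀ hu ?_, mul_left_cancel₀ hu ?_⟩
  · linear_combination h1 - h2
  · linear_combination h3 + h2
  · linear_combination h4

theorem x3t : X3TStmt := by
  intro p _ B B' h h' hE
  rcases h with ⟨a⟩ | h2 | _ | ⟨a, h⟩ <;>
  rcases h' with ⟨a'⟩ | h2' | _ | ⟨a', h'⟩ <;>
  obtain ⟨u, k, hu, h1, h2, h3⟩ := ex hE
  -- t1
  · have hu1 : u = 1 := by linear_combination - h3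
    rw [hu1] at h1
    have hk : k * k - k = 0 := by
      by_cases hp : p = 2
      · subst hp
        linear_combination (z2 0 k).1
      · have h20 : (2 : ZMod p) ≠ 0 := by
          intro h
          apply hp
          have h3 : ((2 : ℕ) : ZMod p) = 0 := by exact_mod_cast h
          rw [ZMod.natCast_eq_zero_iff] at h3
          exact (Nat.prime_dvd_prime_iff_eq Fact.out Nat.prime_two).1 h3
        have : 2 * k = 0 := by linear_combination - h2
        rw [(mul_eq_zero.1 this).resolve_left h20]; ring
    have : a = a' := by linear_combination - h1 - hk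
    rw [this]
  · exfalso
    subst h2'
    have := (z2 0 k).2
    exact one_ne_zero (by linear_combination h2 + this : (1 : ZMod 2) = 0)
  · exfalso; exact hu (by linear_combination - h3)
  · exfalso; exact hu (by linear_combination - h3)
  -- t2
  · exfalso
    rename_i h4
    subst h4
    have := (z2 0 k).2
    exact hu (by linear_combination - h2 - this)
  · rfl
  · exfalso; exact hu (by linear_combination - h3)
  · exfalso; exact hu (by linear_combination - h3)
  -- t3
  · exfalso; exact one_ne_zero (by linear_combination h3 : (1 : ZMod p) = 0)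
  · exfalso; exact one_ne_zero (by linear_combination h3 : (1 : ZMod p) = 0)
  · rfl
  · exfalso; exact hu (by linear_combination - h2)
  -- t4
  · exfalso; exact one_ne_zero (by linear_combination h3 : (1 : ZMod p) = 0)
  · exfalso; exact one_ne_zero (by linear_combination h3 : (1 : ZMod p) = 0)
  · exfalso; exact one_ne_zero (by linear_combination h2 : (1 : ZMod p) = 0)
  · rw [bit_uniq hu h h' (mul_left_cancel₀ hu (by linear_combination h1))]

end Pool.NR
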