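import Pool.Agent.H4.NR.Core3b

namespace Pool.NR

open H4

private theorem ex {p : ℕ} [Fact p.Prime] {b c d b' c' d' : ZMod p}
    (hE : Eq3b (T22 0 b c d 1 0 0 0) (T22 0 b' c' d' 1 0 0 0)) :
    ∃ u k v : ZMod p, u ≠ 0 ∧ v ≠ 0 ∧ u * b' = u * v * b + k * v * d ∧
      u * c' = u * v * c + k * v * d ∧ u * d' = v * v * d := by
  rw [eq3b_iff] at hE
  obtain ⟨u, k, v, r, e, hu, hv, hr, h1, h2, h3, h4, h5, h6, h7, h8⟩ := hE
  refine ⟨u, k, v, hu, hv, ?_, ?_, ?_⟩
  · linear_combination h2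
  · linear_combination h3
  · linear_combination h4

theorem x3u : X3UStmt := by
  intro p _ B B' h h' hE
  rcases h with ⟨c, h⟩ | ⟨b, c, h⟩ <;>
  rcases h' with ⟨c', h'⟩ | ⟨b', c', h'⟩ <;>
  obtain ⟨u, k, v, hu, hv, h1, h2, h3⟩ := ex hE
  · have hk : k = 0 := by
      have : k * v = 0 := by linear_combination - h1
      exact (mul_eq_zero.1 this).resolve_right hv
    subst hk
    rw [bit_uniq hv h h' (mul_left_cancel₀ hu (by linear_combination h2))]
  · exfalso; exact (mul_ne_zero hv hv) (by linear_combination - h3)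
  · exfalso; exact hu (by linear_combination h3)
  · obtain ⟨k1, k2⟩ := pt0_uniq hv h h' (mul_left_cancel₀ hu (by linear_combination h1))
      (mul_left_cancel₀ hu (by linear_combination h2))
    rw [k1, k2]

end Pool.NR
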